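import Pool.Agent.Work.MP_d1af35_lc.Main

open MvPolynomial

namespace Pool.Agent.Results.MP_d1af35_lc.WidthVsDc

open Pool.Agent.Work.MP_d1af35_lc

/-- For every degree `d ≥ 2` and every constant `C` there are a commutative ring `R` and a nonzero
homogeneous polynomial `f` of degree `d` over `R` with `w(f) > C · dc(f)`. -/
theorem result (d : ℕ) (hd : 2 ≤ d) (C : ℕ) :
    ∃ (R : Type) (_ : CommRing R) (N : ℕ) (f : MvPolynomial (Fin N) R),
      f ≠ 0 ∧ f.IsHomogeneous d ∧ C * dc f < width d f :=
  main d hd C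

end Pool.Agent.Results.MP_d1af35_lc.WidthVsDc
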